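import Pool.Agent.Helper73.TK.Defs

set_option autoImplicit false

namespace Pool.Agent.Helper73.TK

open Set Ordinal Cardinal

lemma countable_Iio_of_lt {a : Ordinal.{0}} (ha : a < ω₁) : Countable (Set.Iio a) := by
  have h1 : a.card < aleph 1 := by
    rw [← Cardinal.lt_ord, Cardinal.ord_aleph]
    exact ha
  have h2 : a.card ≤ ℵ₀ := by
    rw [← Cardinal.succ_aleph0] at h1
    exact Order.lt_succ_iff.1 h1
  rw [← Cardinal.mk_le_aleph0_iff, Cardinal.mk_Iio_ordinal]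
  exact Cardinal.lift_le_aleph0.2 h2

lemma succ_lt_omega_one {a : Ordinal.{0}} (ha : a < ω₁) : Order.succ a < ω₁ :=
  (Cardinal.isSuccLimit_omega 1).succ_lt ha

lemma exists_closed (F : Ordinal.{0} → Ordinal.{0}) (hF : ∀ γ < ω₁, F γ < ω₁)
    {a : Ordinal.{0}} (ha : a < ω₁) : ∃ b < ω₁, a < b ∧ ∀ γ < b, F γ < b := by
  let H : Ordinal.{0} → Ordinal.{0} := fun a => ⨆ γ : Set.Iio a, Order.succ (F γ)
  have hH : ∀ c < ω₁, H c < ω₁ := by
    intro c hc
    have := countable_Iio_of_lt hc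
    apply Ordinal.iSup_lt_omega_one
    rintro ⟨γ, hγ⟩
    exact succ_lt_omega_one (hF γ (lt_trans hγ hc))
  have hH2 : ∀ c, ∀ γ < c, F γ < H c := by
    intro c γ hγ
    exact lt_of_lt_of_le (Order.lt_succ _)
      (Ordinal.le_iSup (fun γ : Set.Iio c => Order.succ (F γ)) ⟨γ, hγ⟩)
  let s : ℕ → Ordinal.{0} := fun n => Nat.rec (Order.succ a) (fun _ c => max (Order.succ c) (H c)) n
  have hs0 : s 0 = Order.succ a := rfl
  have hs1 : ∀ n, s (n + 1) = max (Order.succ (s n)) (H (s n)) := fun n => rfl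
  have hlt : ∀ n, s n < ω₁ := by
    intro n
    induction n with
    | zero => exact succ_lt_omega_one ha
    | succ n ih =>
      rw [hs1]
      exact max_lt (succ_lt_omega_one ih) (hH _ ih)
  refine ⟨⨆ n, s n, Ordinal.iSup_lt_omega_one hlt, ?_, ?_⟩
  · exact lt_of_lt_of_le (Order.lt_succ a) (Ordinal.le_iSup s 0)
  · intro γ hγ
    obtain ⟨n, hn⟩ := (Ordinal.lt_iSup_iff).1 hγ
    have h1 : F γ < H (s n) := hH2 _ _ hn
    have h2 : H (s n) ≤ s (n + 1) := by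
      rw [hs1]; exact le_max_right _ _
    exact lt_of_lt_of_le (lt_of_lt_of_le h1 h2) (Ordinal.le_iSup s (n + 1))

/-- Diamond implies CH. -/
theorem diamond_ch (h : Diamond) : (continuum : Cardinal.{0}) ≤ aleph 1 := by
  classical
  obtain ⟨S, hS⟩ := h
  have hC : IsClub {d : Ordinal.{0} | ω ≤ d ∧ d < ω₁} := by
    refine ⟨fun a ha => ha.2, ?_, ?_⟩
    · intro a ha
      refine ⟨max ω (Order.succ a), ⟨le_max_left _ _, max_lt ?_ (succ_lt_omega_one ha)⟩, ?_⟩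
      · exact Ordinal.omega0_lt_omega_one
      · exact lt_of_lt_of_le (Order.lt_succ a) (le_max_right _ _)
    · intro d hd h0 hd2
      refine ⟨?_, hd⟩
      obtain ⟨b, hb, -, hbd⟩ := hd2 0 (pos_iff_ne_zero.2 h0)
      exact le_trans hb.1 (le_of_lt hbd)
  have hex : ∀ A : Set ℕ, ∃ d : Set.Iio (ω₁ : Ordinal.{0}),
      (fun n : ℕ => (n : Ordinal.{0})) '' A = S d := by
    intro A
    obtain ⟨d, hd, hA⟩ := hS ((fun n : ℕ => (n : Ordinal.{0})) '' A) _ hC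
    refine ⟨⟨d, hd.2⟩, ?_⟩
    rw [← hA]
    symm
    apply Set.inter_eq_left.2
    rintro _ ⟨n, -, rfl⟩
    exact lt_of_lt_of_le (Ordinal.natCast_lt_omega0 n) hd.1
  choose φ hφ using hex
  have hinj : Function.Injective φ := by
    intro A B hAB
    have h1 : (fun n : ℕ => (n : Ordinal.{0})) '' A = (fun n : ℕ => (n : Ordinal.{0})) '' B := by
      rw [hφ A, hφ B, hAB]
    exact (Set.image_injective.2 (fun a b hab => Nat.cast_injective hab)) h1
  have h1 := Cardinal.mk_le_of_injective (f := fun A : ULift.{1} (Set ℕ) => φ A.down)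
    (fun A B hAB => ULift.ext _ _ (hinj hAB))
  rw [Cardinal.mk_uLift, Cardinal.mk_set, Cardinal.mk_nat, Cardinal.mk_Iio_ordinal] at h1
  rw [Cardinal.lift_le] at h1
  rw [Cardinal.two_power_aleph0] at h1
  refine le_trans h1 (le_of_eq ?_)
  rw [← Cardinal.ord_aleph, Cardinal.card_ord]

/-- Diamond in functional form. -/
theorem diamond_fun {X : Type} [Nonempty X] (hX : #X ≤ aleph 1) (h : Diamond) :
    ∃ g : Ordinal.{0} → Ordinal.{0} → X, ∀ f : Ordinal.{0} → X, ∀ k : Ordinal.{0} → Ordinal.{0},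
      (∀ γ < ω₁, k γ < ω₁) → ∃ d < ω₁, d ≠ 0 ∧ (∀ γ < d, Order.succ γ < d) ∧ (∀ γ < d, k γ < d) ∧
        ∀ ξ < d, g d ξ = f ξ := by
  classical
  obtain ⟨S, hS⟩ := h
  -- an injection of pairs into the countable ordinals
  have hcard : #(Set.Iio (ω₁ : Ordinal.{0})) = (aleph 1 : Cardinal.{1}) := by
    rw [Cardinal.mk_Iio_ordinal, ← Cardinal.ord_aleph, Cardinal.card_ord, Cardinal.lift_aleph]
    simp
  have hle : #(Set.Iio (ω₁ : Ordinal.{0}) × ULift.{1} X) ≤ #(Set.Iio (ω₁ : Ordinal.{0})) := by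
    rw [Cardinal.mk_prod, Cardinal.mk_uLift, hcard]
    have h1 : Cardinal.lift.{1} #X ≤ aleph 1 := by
      have := Cardinal.lift_le.{1}.2 hX
      rw [Cardinal.lift_aleph] at this
      simpa using this
    have h2 : ℵ₀ ≤ (aleph 1 : Cardinal.{1}) := Cardinal.aleph0_le_aleph 1
    calc _ ≤ (aleph 1 : Cardinal.{1}) * aleph 1 := by
          apply mul_le_mul'
          · exact le_of_eq (by simp)
          · simpa using h1
      _ = aleph 1 := Cardinal.mul_eq_self h2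
  obtain ⟨e⟩ := (Cardinal.le_def _ _).1 hle
  let x0 : X := Classical.arbitrary X
  let g : Ordinal.{0} → Ordinal.{0} → X := fun d ξ =>
    if hξ : ξ < ω₁ then
      if hx : ∃ x : X, (e (⟨ξ, hξ⟩, ⟨x⟩) : Ordinal.{0}) ∈ S d then hx.choose else x0
    else x0
  refine ⟨g, ?_⟩
  intro f k hk
  let F : Ordinal.{0} → Ordinal.{0} := fun γ =>
    max (Order.succ γ) (max (k γ)
      (if hγ : γ < ω₁ then (e (⟨γ, hγ⟩, ⟨f γ⟩) : Ordinal.{0}) else 0))
  have hF : ∀ γ < ω₁, F γ < ω₁ := by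
    intro γ hγ
    refine max_lt (succ_lt_omega_one hγ) (max_lt (hk γ hγ) ?_)
    rw [dif_pos hγ]
    exact (e (⟨γ, hγ⟩, ⟨f γ⟩)).2
  let C : Set Ordinal.{0} := {d | d < ω₁ ∧ d ≠ 0 ∧ ∀ γ < d, F γ < d}
  have hC : IsClub C := by
    refine ⟨fun a ha => ha.1, ?_, ?_⟩
    · intro a ha
      obtain ⟨b, hb, hab, hbF⟩ := exists_closed F hF ha
      refine ⟨b, ⟨hb, ?_, hbF⟩, hab⟩
      rintro rfl
      exact absurd hab not_lt_zero
    · intro d hd h0 hd2
      refine ⟨hd, h0, ?_⟩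
      intro γ hγ
      obtain ⟨b, hb, hγb, hbd⟩ := hd2 γ hγ
      exact lt_trans (hb.2.2 γ hγb) hbd
  let A : Set Ordinal.{0} := {a | ∃ ξ, ∃ hξ : ξ < ω₁, a = (e (⟨ξ, hξ⟩, ⟨f ξ⟩) : Ordinal.{0})}
  obtain ⟨d, hd, hAd⟩ := hS A C hC
  refine ⟨d, hd.1, hd.2.1, ?_, ?_, ?_⟩
  · intro γ hγ
    exact lt_of_le_of_lt (le_max_left _ _) (hd.2.2 γ hγ)
  · intro γ hγ
    exact lt_of_le_of_lt (le_trans (le_max_left _ _) (le_max_right _ _)) (hd.2.2 γ hγ)
  · intro ξ hξ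
    have hξ1 : ξ < ω₁ := lt_trans hξ hd.1
    have hmem : (e (⟨ξ, hξ1⟩, ⟨f ξ⟩) : Ordinal.{0}) ∈ S d := by
      rw [← hAd]
      refine ⟨⟨ξ, hξ1, rfl⟩, ?_⟩
      have h1 := hd.2.2 ξ hξ
      refine lt_of_le_of_lt ?_ h1
      have h2 : F ξ = max (Order.succ ξ) (max (k ξ)
        (e (⟨ξ, hξ1⟩, ⟨f ξ⟩) : Ordinal.{0})) := by
        simp only [F, dif_pos hξ1]
      rw [h2]
      exact le_trans (le_max_right _ _) (le_max_right _ _)
    have hx : ∃ x : X, (e (⟨ξ, hξ1⟩, ⟨x⟩) : Ordinal.{0}) ∈ S d := ⟨f ξ, hmem⟩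
    have hg : g d ξ = hx.choose := by
      simp only [g, dif_pos hξ1, dif_pos hx]
    rw [hg]
    have hspec : (e (⟨ξ, hξ1⟩, ⟨hx.choose⟩) : Ordinal.{0}) ∈ A ∩ Set.Iio d := by
      rw [hAd]
      exact hx.choose_spec
    obtain ⟨⟨ξ', hξ', hEq⟩, -⟩ := hspec
    have h3 := e.injective (Subtype.ext hEq)
    have h4 : ξ = ξ' := congrArg (fun p => ((p.1 : Set.Iio (ω₁ : Ordinal.{0})) : Ordinal.{0})) h3
    have h5 : hx.choose = f ξ' := congrArg (fun p => p.2.down) h3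
    rw [h5, ← h4]

end Pool.Agent.Helper73.TK
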