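import Mathlib
import Pool.Agent.Helper73.TK.Defs

/-!
Module TK4: from the combinatorial core to the answer.
-/

set_option autoImplicit false

namespace Pool.Agent.Helper73.TK

open Set Ordinal Cardinal

theorem fin_mem_fubini {α β : Type} (U : Ultrafilter α) (V : Ultrafilter β) (A : Set (α × β)) :
    A ∈ fubini U V ↔ {a | {b | (a, b) ∈ A} ∈ V} ∈ U := by
  unfold fubini
  change A ∈ Filter.bind (U : Filter α) (fun a => ((V.map (Prod.mk a) : Ultrafilter (α × β)) :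
    Filter (α × β))) ↔ _
  rw [Filter.mem_bind']
  rfl

theorem fin_gt_mem {V : Ultrafilter ℕ} (hV : ∀ n : ℕ, ({n} : Set ℕ)ᶜ ∈ V) (k : ℕ) :
    {n | k < n} ∈ V := by
  have h : (⋂ i ∈ Finset.range (k + 1), ({i} : Set ℕ)ᶜ) ∈ V :=
    (Filter.biInter_finset_mem _).2 (fun i _ => hV i)
  refine Filter.mem_of_superset h ?_
  intro n hn
  by_contra hcon
  simp only [Set.mem_ofPred_eq, not_lt] at hcon
  have := Set.mem_iInter₂.1 hn n (Finset.mem_range.2 (by omega))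
  exact this rfl

/-- the transported product -/
noncomputable def finU (V W : Ultrafilter ℕ) : Ultrafilter ℕ :=
  (fubini V W).map (fun q => Nat.pair q.1 q.2)

theorem mem_finU (V W : Ultrafilter ℕ) (A : Set ℕ) :
    A ∈ finU V W ↔ {n | {m | Nat.pair n m ∈ A} ∈ W} ∈ V := by
  unfold finU
  rw [Ultrafilter.mem_map, fin_mem_fubini]
  rfl

theorem fin_i {V W : Ultrafilter ℕ} (hV : ∀ n : ℕ, ({n} : Set ℕ)ᶜ ∈ V)
    (hW : ∀ n : ℕ, ({n} : Set ℕ)ᶜ ∈ W) : TukeyLE (ℕ → ℕ) (Dir (finU V W)) := by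
  have hmem : ∀ g : ℕ → ℕ, {x : ℕ | ∀ i ≤ x.unpair.1, g i ≤ x.unpair.2} ∈ finU V W := by
    intro g
    rw [mem_finU]
    refine Filter.mem_of_superset Filter.univ_mem ?_
    intro n _
    simp only [Set.mem_ofPred_eq, Nat.unpair_pair]
    have h := fin_gt_mem hW ((Finset.range (n + 1)).sup g)
    refine Filter.mem_of_superset h ?_
    intro m hm i hi
    have : g i ≤ (Finset.range (n + 1)).sup g := Finset.le_sup (Finset.mem_range.2 (by omega))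
    exact this.trans (le_of_lt hm)
  refine ⟨fun g => ⟨_, hmem g⟩, fun X hX hb => hX ?_⟩
  obtain ⟨D, hD⟩ := hb
  have hDm := D.mem
  rw [mem_finU] at hDm
  have hex : ∀ i : ℕ, ∃ m, ∀ g ∈ X, g i ≤ m := by
    intro i
    obtain ⟨n, hn1, hn2⟩ := Ultrafilter.nonempty_of_mem (Filter.inter_mem hDm (fin_gt_mem hV i))
    obtain ⟨m, hm⟩ := Ultrafilter.nonempty_of_mem hn1
    refine ⟨m, fun g hg => ?_⟩
    have h1 : D.set ⊆ {x : ℕ | ∀ i ≤ x.unpair.1, g i ≤ x.unpair.2} :=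
      hD (Set.mem_image_of_mem _ hg)
    have h2 := h1 hm
    simp only [Set.mem_ofPred_eq, Nat.unpair_pair] at h2
    exact h2 i (le_of_lt hn2)
  choose G hG using hex
  exact ⟨G, fun g hg i => hG i g hg⟩

theorem fin_ii (U : Ultrafilter ℕ) : TukeyLE (Dir U) (Dir (fubini U U)) := by
  have hmem : ∀ A : Dir U, (A.set ×ˢ (Set.univ : Set ℕ)) ∈ fubini U U := by
    intro A
    rw [fin_mem_fubini]
    refine Filter.mem_of_superset A.mem ?_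
    intro a ha
    simp only [Set.mem_ofPred_eq, Set.mem_prod, Set.mem_univ, and_true]
    have : {b : ℕ | a ∈ A.set} = Set.univ := by
      ext b
      simp [ha]
    rw [this]
    exact Filter.univ_mem
  refine ⟨fun A => ⟨_, hmem A⟩, fun X hX hb => hX ?_⟩
  obtain ⟨D, hD⟩ := hb
  have hDm := D.mem
  rw [fin_mem_fubini] at hDm
  refine ⟨⟨_, hDm⟩, fun A hA => ?_⟩
  have h1 : D.set ⊆ A.set ×ˢ (Set.univ : Set ℕ) := hD (Set.mem_image_of_mem _ hA)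
  intro a ha
  obtain ⟨b, hb⟩ := Ultrafilter.nonempty_of_mem ha
  exact (h1 hb).1

theorem fin_iii {ι : Type*} {V W : Ultrafilter ℕ} (hV : ∀ n : ℕ, ({n} : Set ℕ)ᶜ ∈ V)
    (u : ι → ℕ → ℕ) (hu : ∀ ξ k, {x | k ≤ u ξ x} ∈ V)
    (hcore : ∀ (B : ι → Set ℕ) (C : ι → ℕ → Set ℕ), (∀ ξ, B ξ ∈ V) → (∀ ξ n, C ξ n ∈ W) →
      ∃ (k : ℕ) (H : Set ι), (⋂ ξ ∈ H, B ξ) ∈ V ∧ (∀ n, (⋂ ξ ∈ H, C ξ n) ∈ W) ∧
        {x | ∃ ξ ∈ H, u ξ x ≤ k} ∈ V) :
    ¬ TukeyLE (Dir (fubini (finU V W) (finU V W))) (Dir (finU V W)) := by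
  classical
  rintro ⟨φ, hφ⟩
  have hmem : ∀ ξ, {q : ℕ × ℕ | q.1 ≤ u ξ q.2.unpair.1} ∈ fubini (finU V W) (finU V W) := by
    intro ξ
    rw [fin_mem_fubini]
    refine Filter.mem_of_superset Filter.univ_mem ?_
    intro x _
    change {y : ℕ | x ≤ u ξ y.unpair.1} ∈ finU V W
    rw [mem_finU]
    refine Filter.mem_of_superset (hu ξ x) ?_
    intro n hn
    have : {m : ℕ | Nat.pair n m ∈ {y : ℕ | x ≤ u ξ y.unpair.1}} = Set.univ := by
      ext m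
      simp only [Set.mem_ofPred_eq, Nat.unpair_pair, Set.mem_univ, iff_true]
      exact hn
    change {m : ℕ | Nat.pair n m ∈ {y : ℕ | x ≤ u ξ y.unpair.1}} ∈ W
    rw [this]
    exact Filter.univ_mem
  set A : ι → Dir (fubini (finU V W) (finU V W)) := fun ξ => ⟨_, hmem ξ⟩ with hA
  set B : ι → Set ℕ := fun ξ => {n | {m | Nat.pair n m ∈ (φ (A ξ)).set} ∈ W} with hB
  set C : ι → ℕ → Set ℕ := fun ξ n =>
    if {m | Nat.pair n m ∈ (φ (A ξ)).set} ∈ W then {m | Nat.pair n m ∈ (φ (A ξ)).set}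
    else Set.univ with hC
  have hBV : ∀ ξ, B ξ ∈ V := fun ξ => (mem_finU V W _).1 (φ (A ξ)).mem
  have hCW : ∀ ξ n, C ξ n ∈ W := by
    intro ξ n
    simp only [hC]
    split_ifs with h
    · exact h
    · exact Filter.univ_mem
  obtain ⟨k, H, h1, h2, h3⟩ := hcore B C hBV hCW
  have hD0 : {x : ℕ | x.unpair.1 ∈ (⋂ ξ ∈ H, B ξ) ∧ x.unpair.2 ∈ (⋂ ξ ∈ H, C ξ x.unpair.1)} ∈
      finU V W := by
    rw [mem_finU]
    refine Filter.mem_of_superset h1 ?_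
    intro n hn
    refine Filter.mem_of_superset (h2 n) ?_
    intro m hm
    simp only [Set.mem_ofPred_eq, Nat.unpair_pair]
    exact ⟨hn, hm⟩
  have hbdd : BddAbove (φ '' (A '' H)) := by
    refine ⟨⟨_, hD0⟩, ?_⟩
    rintro _ ⟨_, ⟨ξ, hξ, rfl⟩, rfl⟩
    intro x hx
    obtain ⟨hx1, hx2⟩ := hx
    have hb : x.unpair.1 ∈ B ξ := Set.mem_iInter₂.1 hx1 ξ hξ
    have hc : x.unpair.2 ∈ C ξ x.unpair.1 := Set.mem_iInter₂.1 hx2 ξ hξ
    have hb' : {m | Nat.pair x.unpair.1 m ∈ (φ (A ξ)).set} ∈ W := hb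
    simp only [hC] at hc
    rw [if_pos hb'] at hc
    have : Nat.pair x.unpair.1 x.unpair.2 ∈ (φ (A ξ)).set := hc
    rwa [Nat.pair_unpair] at this
  have hbdd' : BddAbove (A '' H) := by
    by_contra hcon
    exact hφ _ hcon hbdd
  obtain ⟨D, hD⟩ := hbdd'
  have hDm := D.mem
  rw [fin_mem_fubini] at hDm
  have hk : {x : ℕ | k < x} ∈ finU V W := by
    rw [mem_finU]
    refine Filter.mem_of_superset (fin_gt_mem hV k) ?_
    intro n hn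
    have : {m : ℕ | Nat.pair n m ∈ {x : ℕ | k < x}} = Set.univ := by
      ext m
      simp only [Set.mem_ofPred_eq, Set.mem_univ, iff_true]
      exact lt_of_lt_of_le hn (Nat.left_le_pair n m)
    change {m : ℕ | Nat.pair n m ∈ {x : ℕ | k < x}} ∈ W
    rw [this]
    exact Filter.univ_mem
  obtain ⟨x, hx1, hx2⟩ := Ultrafilter.nonempty_of_mem (Filter.inter_mem hDm hk)
  have hx1' : {y : ℕ | (x, y) ∈ D.set} ∈ finU V W := hx1
  rw [mem_finU] at hx1'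
  obtain ⟨n, hn1, hn2⟩ := Ultrafilter.nonempty_of_mem (Filter.inter_mem hx1' h3)
  obtain ⟨m, hm⟩ := Ultrafilter.nonempty_of_mem hn1
  obtain ⟨ξ, hξ, hle⟩ := hn2
  have h4 : D.set ⊆ {q : ℕ × ℕ | q.1 ≤ u ξ q.2.unpair.1} := hD (Set.mem_image_of_mem A hξ)
  have h5 : x ≤ u ξ (Nat.pair n m).unpair.1 := h4 hm
  rw [Nat.unpair_pair] at h5
  have h6 : k < x := hx2
  simp only at h5
  omega

/-- `V`, `W` ultrafilters on `ℕ`, nonprincipal, and functions `u ξ` (`ξ` in some index type) such that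
`{x | k ≤ u ξ x} ∈ V` for all `k`, `ξ`; and whenever `B ξ ∈ V` and `C ξ n ∈ W` are given there are a number `k` and a set
`H` of indices with `⋂ B ∈ V`, all `⋂ C n ∈ W` and `{x | ∃ ξ ∈ H, u ξ x ≤ k} ∈ V`. Then the product
`U` of `V` and `W`, transported to `ℕ` by the pairing function, is the wanted ultrafilter. -/
theorem final {ι : Type*} (V W : Ultrafilter ℕ) (hV : ∀ n : ℕ, ({n} : Set ℕ)ᶜ ∈ V)
    (hW : ∀ n : ℕ, ({n} : Set ℕ)ᶜ ∈ W) (u : ι → ℕ → ℕ) (hu : ∀ ξ k, {x | k ≤ u ξ x} ∈ V)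
    (hcore : ∀ (B : ι → Set ℕ) (C : ι → ℕ → Set ℕ), (∀ ξ, B ξ ∈ V) → (∀ ξ n, C ξ n ∈ W) →
      ∃ (k : ℕ) (H : Set ι), (⋂ ξ ∈ H, B ξ) ∈ V ∧ (∀ n, (⋂ ξ ∈ H, C ξ n) ∈ W) ∧
        {x | ∃ ξ ∈ H, u ξ x ≤ k} ∈ V) :
    ∃ U : Ultrafilter ℕ, TukeyLE (ℕ → ℕ) (Dir U) ∧ TukeyLE (Dir U) (Dir (fubini U U)) ∧
      ¬ TukeyLE (Dir (fubini U U)) (Dir U) :=
  ⟨finU V W, fin_i hV hW, fin_ii _, fin_iii hV u hu hcore⟩

end Pool.Agent.Helper73.TK
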