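import Pool.Agent.Helper73.TK.Defs

/-! Module TK1: P-points from CH. -/

set_option autoImplicit false

namespace Pool.Agent.Helper73.TK

open Set Ordinal Cardinal

namespace PP

/-- A countable family of sets all whose finite intersections are infinite has an infinite
pseudo-intersection. -/
theorem pseudo (s : ℕ → Set ℕ) (hs : ∀ n, (⋂ i ≤ n, s i).Infinite) :
    ∃ X : Set ℕ, X.Infinite ∧ ∀ i, (X \ s i).Finite := by
  obtain ⟨φ, hφ, hP⟩ := Filter.extraction_forall_of_frequently
    (P := fun n k => k ∈ ⋂ i ≤ n, s i) (fun n => Nat.frequently_atTop_iff_infinite.2 (hs n))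
  refine ⟨Set.range φ, Set.infinite_range_of_injective hφ.injective, fun i => ?_⟩
  refine ((Set.finite_lt_nat i).image φ).subset ?_
  rintro _ ⟨⟨n, rfl⟩, hn⟩
  refine ⟨n, ?_, rfl⟩
  by_contra hni
  have hni' : i ≤ n := not_lt.1 hni
  exact hn (Set.mem_iInter₂.1 (hP n) i hni')

/-- the property of the next set -/
def Next (r : Set ℕ → Set ℕ → Prop) (A : Set ℕ) (E : (B : Set ℕ) → r B A → Set ℕ) (X : Set ℕ) :
    Prop :=
  X.Infinite ∧ (∀ B (h : r B A), (X \ E B h).Finite) ∧ (X ⊆ A ∨ X ∩ A = ∅)

open Classical in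
/-- one step of the recursion -/
noncomputable def stepE (r : Set ℕ → Set ℕ → Prop) (A : Set ℕ)
    (E : (B : Set ℕ) → r B A → Set ℕ) : Set ℕ :=
  if h : ∃ X, Next r A E X then h.choose else Set.univ

open Classical in
theorem stepE_spec (r : Set ℕ → Set ℕ → Prop) (A : Set ℕ)
    (E : (B : Set ℕ) → r B A → Set ℕ) (h : ∃ X, Next r A E X) : Next r A E (stepE r A E) := by
  unfold stepE
  rw [dif_pos h]
  exact h.choose_spec

theorem exists_next (r : Set ℕ → Set ℕ → Prop) [IsWellOrder (Set ℕ) r] (A : Set ℕ)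
    (hc : {B | r B A}.Countable) (E : Set ℕ → Set ℕ) (hinf : ∀ B, r B A → (E B).Infinite)
    (hdec : ∀ B C, r C A → r B C → (E C \ E B).Finite) :
    ∃ X, Next r A (fun B _ => E B) X := by
  -- it is enough to find a pseudo-intersection
  obtain ⟨Y, hY, hYE⟩ : ∃ Y : Set ℕ, Y.Infinite ∧ ∀ B, r B A → (Y \ E B).Finite := by
    by_cases hemp : {B | r B A} = ∅
    · refine ⟨Set.univ, Set.infinite_univ, fun B hB => ?_⟩
      have : B ∈ {B | r B A} := hB
      rw [hemp] at this
      exact this.elim
    obtain ⟨b, hb⟩ := hc.exists_eq_range (Set.nonempty_iff_ne_empty.2 hemp)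
    have hbr : ∀ n, r (b n) A := fun n => by
      have : b n ∈ {B | r B A} := by rw [hb]; exact Set.mem_range_self n
      exact this
    obtain ⟨Y, hY, hYE⟩ := pseudo (fun n => E (b n)) (by
      intro n
      -- the latest among b 0, ..., b n
      have hmax : ∃ m ≤ n, ∀ i ≤ n, (E (b m) \ E (b i)).Finite := by
        induction n with
        | zero =>
          refine ⟨0, le_rfl, fun i hi => ?_⟩
          rw [Nat.le_zero.1 hi]
          simp
        | succ n ih =>
          obtain ⟨m, hm, hmi⟩ := ih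
          rcases trichotomous_of r (b m) (b (n + 1)) with h | h | h
          · refine ⟨n + 1, le_rfl, fun i hi => ?_⟩
            rcases Nat.le_succ_iff.1 hi with hi | hi
            · refine ((hdec _ _ (hbr _) h).union (hmi i hi)).subset ?_
              intro x hx
              by_cases hxm : x ∈ E (b m)
              · exact Or.inr ⟨hxm, hx.2⟩
              · exact Or.inl ⟨hx.1, hxm⟩
            · rw [hi]; simp
          · refine ⟨m, by omega, fun i hi => ?_⟩
            rcases Nat.le_succ_iff.1 hi with hi | hi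
            · exact hmi i hi
            · rw [hi, ← h]; simp
          · refine ⟨m, by omega, fun i hi => ?_⟩
            rcases Nat.le_succ_iff.1 hi with hi | hi
            · exact hmi i hi
            · rw [hi]; exact hdec _ _ (hbr _) h
      obtain ⟨m, hm, hmi⟩ := hmax
      have hfin : (⋃ i ∈ {i | i ≤ n}, (E (b m) \ E (b i))).Finite :=
        (Set.finite_le_nat n).biUnion (fun i hi => hmi i hi)
      refine ((hinf _ (hbr m)).sdiff hfin).mono ?_
      intro x hx
      rw [Set.mem_iInter₂]
      intro i hi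
      by_contra hxi
      exact hx.2 (Set.mem_biUnion (show i ∈ {i | i ≤ n} from hi) ⟨hx.1, hxi⟩))
    refine ⟨Y, hY, fun B hB => ?_⟩
    have : B ∈ Set.range b := by rw [← hb]; exact hB
    obtain ⟨n, rfl⟩ := this
    exact hYE n
  by_cases hA : (Y ∩ A).Infinite
  · exact ⟨Y ∩ A, hA, fun B hB => (hYE B hB).subset (fun x hx => ⟨hx.1.1, hx.2⟩),
      Or.inl Set.inter_subset_right⟩
  · refine ⟨Y \ (Y ∩ A), hY.sdiff (Set.not_infinite.1 hA), fun B hB =>
      (hYE B hB).subset (fun x hx => ⟨hx.1.1, hx.2⟩), Or.inr ?_⟩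
    ext x
    simp only [Set.mem_inter_iff, Set.mem_sdiff, Set.mem_empty_iff_false, iff_false]
    rintro ⟨⟨h1, h2⟩, h3⟩
    exact h2 ⟨h1, h3⟩

theorem exists_seq (r : Set ℕ → Set ℕ → Prop) [IsWellOrder (Set ℕ) r]
    (hc : ∀ A, {B | r B A}.Countable) :
    ∃ E : Set ℕ → Set ℕ, ∀ A, (E A).Infinite ∧ (∀ B, r B A → (E A \ E B).Finite) ∧
      (E A ⊆ A ∨ E A ∩ A = ∅) := by
  have wf : WellFounded r := IsWellFounded.wf
  refine ⟨wf.fix (stepE r), ?_⟩
  intro A
  induction A using wf.induction with
  | _ A ih =>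
    have hex : ∃ X, Next r A (fun B _ => wf.fix (stepE r) B) X := by
      refine exists_next r A (hc A) _ (fun B hB => (ih B hB).1) ?_
      intro B C hC hBC
      exact (ih C hC).2.1 B hBC
    have hE : wf.fix (stepE r) A = stepE r A (fun B _ => wf.fix (stepE r) B) := wf.fix_eq _ _
    have hN : Next r A (fun B _ => wf.fix (stepE r) B) (wf.fix (stepE r) A) := by
      rw [hE]
      exact stepE_spec r A _ hex
    exact hN

end PP

/-- CH implies that there is a P-point. Proof: enumerate the subsets of `ℕ` as `A_ξ`, `ξ < ω₁`; by recursion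
choose infinite sets `E_ξ` with `E_ξ \ E_ζ` finite for all `ζ < ξ` and `E_ξ ⊆ A_ξ` or `E_ξ ∩ A_ξ = ∅`
(a countable family, directed, of infinite sets decreasing modulo finite has an infinite pseudo-intersection);
`W = {A | ∃ ξ < ω₁, (E_ξ \ A).Finite}`. -/
theorem exists_ppoint (hCH : (continuum : Cardinal.{0}) ≤ aleph 1) : ∃ W : Ultrafilter ℕ, IsPPoint W := by
  obtain ⟨r, hr, htype⟩ := Cardinal.exists_ord_eq (Set ℕ)
  have hcard : #(Set ℕ) = continuum := by
    rw [Cardinal.mk_set, Cardinal.mk_nat, Cardinal.two_power_aleph0]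
  have hc : ∀ A, {B | r B A}.Countable := by
    intro A
    have h1 : (Ordinal.typein r A).card < #(Set ℕ) := by
      have h2 : Ordinal.typein r A < Ordinal.type r := Ordinal.typein_lt_type r A
      rw [← htype] at h2
      exact Cardinal.lt_ord.1 h2
    have h3 : (Ordinal.typein r A).card = #{B | r B A} := rfl
    rw [h3, hcard] at h1
    have h4 : #{B | r B A} < aleph 1 := h1.trans_le hCH
    rw [← Cardinal.succ_aleph0, Order.lt_succ_iff] at h4
    exact Cardinal.le_aleph0_iff_set_countable.1 h4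
  obtain ⟨E, hE⟩ := PP.exists_seq r hc
  have hbound : ∀ B : ℕ → Set ℕ, ∃ A, ∀ n, r (B n) A := by
    intro B
    have h1 : (⋃ n, ({C | r C (B n)} ∪ {B n})).Countable :=
      Set.countable_iUnion (fun n => (hc (B n)).union (Set.countable_singleton _))
    have h2 : (⋃ n, ({C | r C (B n)} ∪ {B n})) ≠ Set.univ := by
      intro h3
      rw [h3] at h1
      have h4 : #(Set ℕ) ≤ ℵ₀ := by
        rw [← Cardinal.mk_univ]
        exact Cardinal.le_aleph0_iff_set_countable.2 h1
      rw [hcard] at h4
      exact absurd h4 (not_le.2 Cardinal.aleph0_lt_continuum)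
    obtain ⟨A, hA⟩ := (Set.ne_univ_iff_exists_notMem _).1 h2
    refine ⟨A, fun n => ?_⟩
    rw [Set.mem_iUnion, not_exists] at hA
    have h3 := hA n
    rcases trichotomous_of r (B n) A with h | h | h
    · exact h
    · exact absurd (Or.inr h.symm) h3
    · exact absurd (Or.inl h) h3
  -- the filter
  let F : Filter ℕ :=
    { sets := {A | ∃ B, (E B \ A).Finite}
      univ_sets := ⟨∅, by simp⟩
      sets_of_superset := by
        rintro x y ⟨B, hB⟩ hxy
        exact ⟨B, hB.subset (fun z hz => ⟨hz.1, fun h => hz.2 (hxy h)⟩)⟩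
      inter_sets := by
        rintro x y ⟨B, hB⟩ ⟨C, hC⟩
        have key : ∀ B C x y : Set ℕ, (E B \ x).Finite → (E C \ y).Finite → (r B C ∨ B = C) →
            (E C \ (x ∩ y)).Finite := by
          intro B C x y hB hC h
          have h1 : (E C \ E B).Finite := by
            rcases h with h | h
            · exact (hE C).2.1 B h
            · rw [h]; simp
          refine ((h1.union hB).union hC).subset ?_
          intro z hz
          by_cases h2 : z ∈ y
          · by_cases h3 : z ∈ E B
            · exact Or.inl (Or.inr ⟨h3, fun h4 => hz.2 ⟨h4, h2⟩⟩)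
            · exact Or.inl (Or.inl ⟨hz.1, h3⟩)
          · exact Or.inr ⟨hz.1, h2⟩
        rcases trichotomous_of r B C with h | h | h
        · exact ⟨C, key B C x y hB hC (Or.inl h)⟩
        · exact ⟨C, key B C x y hB hC (Or.inr h)⟩
        · refine ⟨B, ?_⟩
          rw [Set.inter_comm]
          exact key C B y x hC hB (Or.inl h) }
  have hmem : ∀ A, A ∈ F ↔ ∃ B, (E B \ A).Finite := fun A => Iff.rfl
  have hnot : ∀ A, ¬ (A ∈ F ∧ Aᶜ ∈ F) := by
    rintro A ⟨h1, h2⟩
    obtain ⟨B, hB⟩ := (hmem _).1 (F.inter_sets h1 h2)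
    rw [Set.inter_compl_self, Set.sdiff_empty] at hB
    exact (hE B).1 hB
  have hultra : ∀ A, A ∈ F ∨ Aᶜ ∈ F := by
    intro A
    rcases (hE A).2.2 with h | h
    · left
      exact ⟨A, by rw [Set.sdiff_eq_empty.2 h]; exact Set.finite_empty⟩
    · right
      refine ⟨A, ?_⟩
      have : E A \ Aᶜ = ∅ := by rw [Set.sdiff_compl]; exact h
      rw [this]; exact Set.finite_empty
  refine ⟨Ultrafilter.ofComplNotMemIff F (fun s => ⟨fun h => (hultra s).resolve_right h,
    fun h h' => hnot s ⟨h, h'⟩⟩), ?_, ?_⟩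
  · intro n
    show ({n} : Set ℕ)ᶜ ∈ F
    refine ⟨∅, ?_⟩
    rw [Set.sdiff_compl]
    exact (Set.finite_singleton n).subset Set.inter_subset_right
  · intro f hf
    have hf' : ∀ n, ∃ B, (E B \ f n).Finite := fun n => hf n
    choose B hB using hf'
    obtain ⟨A, hA⟩ := hbound B
    refine ⟨E A, ?_, fun n => ?_⟩
    · show E A ∈ F
      exact ⟨A, by simp⟩
    · refine (((hE A).2.1 _ (hA n)).union (hB n)).subset ?_
      intro x hx
      by_cases h : x ∈ E (B n)
      · exact Or.inr ⟨h, hx.2⟩
      · exact Or.inl ⟨hx.1, h⟩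

end Pool.Agent.Helper73.TK
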